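import Pool.Agent.helper58.CRO.SpecJ

set_option autoImplicit false

open MeasureTheory Set

noncomputable section

namespace Pool.Agent.CRO

private lemma JF1_pos {Ω α : ℝ} (hΩ : 0 < Ω) (hc : 0 < Real.cos α) (s : ℝ) :
    0 < Ω ^ 2 * Real.cos α ^ 2 + s ^ 2 * Real.sin α ^ 2 := by positivity

private lemma JF1_W {Ω α : ℝ} (hΩ : 0 < Ω) (hc : 0 < Real.cos α) (s : ℝ) : 0 < Wf Ω α s :=
  Real.sqrt_pos.2 (JF1_pos hΩ hc s)

private lemma JF1_sq {Ω α : ℝ} (hΩ : 0 < Ω) (hc : 0 < Real.cos α) (s : ℝ) :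
    Wf Ω α s ^ 2 = Ω ^ 2 * Real.cos α ^ 2 + s ^ 2 * Real.sin α ^ 2 :=
  Real.sq_sqrt (JF1_pos hΩ hc s).le

private lemma JF1_der {Ω α : ℝ} (hΩ : 0 < Ω) (hc : 0 < Real.cos α) (s : ℝ) :
    HasDerivAt (fun s => Wf Ω α s) (s * Real.sin α ^ 2 / Wf Ω α s) s := by
  have h1 : HasDerivAt (fun s : ℝ => Ω ^ 2 * Real.cos α ^ 2 + s ^ 2 * Real.sin α ^ 2)
      (2 * s * Real.sin α ^ 2) s := by
    have h2 := ((hasDerivAt_pow 2 s).mul_const (Real.sin α ^ 2)).const_add (Ω ^ 2 * Real.cos α ^ 2)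
    have e : ((2 : ℕ) : ℝ) * s ^ (2 - 1) * Real.sin α ^ 2 = 2 * s * Real.sin α ^ 2 := by
      push_cast
      ring
    rw [e] at h2
    exact h2
  have h3 := h1.sqrt (JF1_pos hΩ hc s).ne'
  have e2 : 2 * s * Real.sin α ^ 2 / (2 * Real.sqrt (Ω ^ 2 * Real.cos α ^ 2 + s ^ 2 * Real.sin α ^ 2)) =
      s * Real.sin α ^ 2 / Wf Ω α s := by
    unfold Wf
    rw [mul_assoc, mul_div_mul_left _ _ (by norm_num : (2 : ℝ) ≠ 0)]
  rw [e2] at h3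
  exact h3

theorem JF1 : JF1_stmt := by
  intro n hn Ω α hΩ hα hα2
  have hc : 0 < Real.cos α := Real.cos_pos_of_mem_Ioo ⟨by linarith, hα2⟩
  obtain ⟨m, rfl⟩ : ∃ m, n = m + 2 := ⟨n - 2, by omega⟩
  have hq : ∀ s : ℝ, HasDerivAt (fun s => s / Wf Ω α s) (Ω ^ 2 * Real.cos α ^ 2 / Wf Ω α s ^ 3) s := by
    intro s
    have hW := JF1_W hΩ hc s
    have h1 := (hasDerivAt_id s).div (JF1_der hΩ hc s) hW.ne'
    have e : (1 * Wf Ω α s - id s * (s * Real.sin α ^ 2 / Wf Ω α s)) / Wf Ω α s ^ 2 =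
        Ω ^ 2 * Real.cos α ^ 2 / Wf Ω α s ^ 3 := by
      have h2 := JF1_sq hΩ hc s
      have h3 : Ω ^ 2 * Real.cos α ^ 2 = Wf Ω α s ^ 2 - s ^ 2 * Real.sin α ^ 2 := by linarith
      rw [h3]
      simp only [id]
      field_simp
    rw [e] at h1
    exact h1
  have hF : ∀ s : ℝ, HasDerivAt (fun s => (s / Wf Ω α s) ^ (m + 1) / (Ω * Real.cos α) ^ 2)
      ((((m + 2 : ℕ) : ℝ) - 1) * s ^ (m + 2 - 2) / Wf Ω α s ^ (m + 2 + 1)) s := by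
    intro s
    have hW := JF1_W hΩ hc s
    have h1 := ((hq s).pow (m + 1)).div_const ((Ω * Real.cos α) ^ 2)
    have e : ((m + 1 : ℕ) : ℝ) * (s / Wf Ω α s) ^ (m + 1 - 1) * (Ω ^ 2 * Real.cos α ^ 2 / Wf Ω α s ^ 3) /
        (Ω * Real.cos α) ^ 2 = (((m + 2 : ℕ) : ℝ) - 1) * s ^ (m + 2 - 2) / Wf Ω α s ^ (m + 2 + 1) := by
      rw [Nat.add_sub_cancel, Nat.add_sub_cancel, div_pow, mul_pow, pow_add (Wf Ω α s) (m + 2) 1,
        pow_add (Wf Ω α s) m 2]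
      push_cast
      field_simp
      ring
    rw [e] at h1
    exact h1
  have hcont : Continuous fun s : ℝ => (((m + 2 : ℕ) : ℝ) - 1) * s ^ (m + 2 - 2) / Wf Ω α s ^ (m + 2 + 1) := by
    have hWc : Continuous fun s : ℝ => Wf Ω α s := by
      unfold Wf
      fun_prop
    exact ((continuous_const.mul (continuous_pow _))).div (hWc.pow _) fun s => (pow_pos (JF1_W hΩ hc s) _).ne'
  rw [intervalIntegral.integral_eq_sub_of_hasDerivAt (fun s _ => hF s) (hcont.intervalIntegrable _ _)]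
  have hWΩ : Wf Ω α Ω = Ω := by
    unfold Wf
    rw [← mul_add, Real.cos_sq_add_sin_sq, mul_one, Real.sqrt_sq hΩ.le]
  rw [hWΩ, div_self hΩ.ne', one_pow]
  simp

end Pool.Agent.CRO
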